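import Pool.Agent.helper43.Rob.Final

/-!
# MP_3d8eb5_mp, Q1: the Laplacian on the Robinson triangle tiling has a spectral gap

All definitions used in the statement are in `Pool.Agent.helper43.Rob.Defs`.

Idea of the proof. The dual graph of a Robinson triangle tiling is 3-regular and properly
edge-coloured by the three edge types, and the substitution acts on coloured graphs. So all patches
can be described combinatorially, and the (finitely many) neighbourhoods of tiles of a fixed level
are enumerated by a kernel computation. For each of them a finitely supported column of an
approximate inverse of `A - 5/16` is stored (`A` the adjacency operator, so that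
`3 - A - 43/16 = 5/16 - A`), with error at most `31/32` in `ℓ¹`. A Neumann series and the symmetry
of `A` turn this into an `ℓ²` lower bound, hence `43/16` is not in the spectrum, and Rayleigh
quotients give points of the spectrum on both sides of `43/16`.
-/

namespace Pool.Agent.Results.MP_3d8eb5_mp.SpectralGap

open Pool.Agent.helper43.Rob

/-- **The spectrum of the Laplacian of every Robinson triangle tiling has a spectral gap**
(and such tilings exist): the component of `43/16` in the complement of the spectrum is a bounded
open interval. Here `H` with the orthonormal basis `δ` indexed by the tiles is the Hilbert space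
`ℓ²` of the set of tiles. -/
theorem result (w : Bool) : (∃ 𝒯, IsRobinsonTiling w 𝒯) ∧ ∀ 𝒯, IsRobinsonTiling w 𝒯 →
    ∀ (H : Type) [NormedAddCommGroup H] [InnerProductSpace ℂ H] [CompleteSpace H]
      (δ : HilbertBasis 𝒯 ℂ H), (∃ L, IsLaplacian δ L) ∧ ∀ L, IsLaplacian δ L →
        IsSelfAdjoint L ∧ ∃ a b : ℝ, (43 / 16 : ℝ) ∈ Set.Ioo a b ∧
          IsSpectralGap (realSpectrum L) (Set.Ioo a b) :=
  spectral_gap w

end Pool.Agent.Results.MP_3d8eb5_mp.SpectralGap
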